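import Pool.Agent.N207.SC.Main
import Pool.Agent.N121.KH.Main

/-!
# All conjugates of the fibres of a symplectic family
-/

set_option autoImplicit false
set_option linter.unusedSectionVars false

open NumberField Filter Matrix

namespace Pool.Agent.N207.SC

open Pool.Agent.Y890.MV Pool.Agent.Y890.SM Pool.Agent.N207.GS

variable {K X ι : Type} [Field K] [NumberField K] [Fintype X] [DecidableEq X] [Fintype ι] [DecidableEq ι]

/-- points of the torsor are on curves in the fibre -/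
theorem symp_irr {n : ι → ℕ} (F : SympFam X n) : ∀ x ∈ F.U, ∀ w ∈ F.Tor x, ∃ S : Set (Ix n → ℂ), GS.Irr S ∧
    (fun i => F.f i x) ∈ S ∧ w ∈ S ∧ S ⊆ Fib F.U F.f x := by
  intro x hx w hw
  obtain ⟨γ, h0, h1, ht⟩ := F.tor.path x hx w hw
  refine ⟨_, irr_path γ, ⟨0, funext h0⟩, ⟨1, funext h1⟩, ?_⟩
  rintro _ ⟨t, rfl⟩ p hp
  exact F.tor.inv p hp x hx _ (ht t)

theorem symp [Nonempty X] {n : ι → ℕ} (F : (K →+* ℂ) → SympFam X n) :
    ∃ (ω : ℝ → ℕ) (C T₀ : ℝ), 0 ≤ C ∧ Tendsto ω atTop atTop ∧ Monotone ω ∧ ∀ T, T₀ ≤ T → 0 < ω T ∧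
      ∀ (L : Type) [Field L] [NumberField L], Module.finrank ℚ L ≤ ω T → ∀ io : L →+* ℂ,
        (∀ φ : K →+* ℂ, ∃ φ' : K →+* L, io.comp φ' = φ) → ∀ (ξ : Fin (ω T) → ℂ) (b : X → 𝓞 K),
        (∀ j, b j ≠ 0 ∧ house (b j : K) ≤ T) →
        {a : X → 𝓞 K | (∀ j, house (a j : K) ≤ T) ∧ (fun j => (a j : K) / (b j : K)) ∈
          ExcV (fun φ => (F φ).U) (fun φ => (F φ).f) (fun φ => (F φ).Tor) L io (ω T) ξ T}.Finite ∧
        ({a : X → 𝓞 K | (∀ j, house (a j : K) ≤ T) ∧ (fun j => (a j : K) / (b j : K)) ∈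
          ExcV (fun φ => (F φ).U) (fun φ => (F φ).f) (fun φ => (F φ).Tor) L io (ω T) ξ T}.ncard : ℝ) ≤
          C * T ^ ((Module.finrank ℚ K * Fintype.card X : ℝ) - 1 + 2 * ((ω T : ℝ)⁻¹)) :=
  main (fun φ => (F φ).conn) (fun φ => (F φ).isOpen) (fun φ => (F φ).nonempty)
    (fun φ q => (F φ).an q.1 q.2.1 q.2.2) (fun φ => symp_irr (F φ))

end Pool.Agent.N207.SC
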